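import Pool.Agent.H97.Block.Main

/-!
# Three concurrent lines: `6 k + 4` points whose connecting lines have `6 k` blocking points

`R` consists of the origin, the points `(1/a, 0)` and `(0, 1/b)` for `1 ≤ a, b ≤ 2k+1`, and the points
`(1/c, 1/c)` for `k+3 ≤ c ≤ 3k+3`. The line `a x + b y = 1` meets the three axes in `(1/a, 0)`, `(0, 1/b)`,
`(1/(a+b), 1/(a+b))`. The blocking points are `(p : q : r)` with `(p, q, r)` one of `(1, 2, 3k+4+3c)`,
`(2, 1, 3k+4+3c)`, `(1, -1, 3c)` for `|c| ≤ k-1`, and `(1, 0, 3k+1)`, `(0, 1, 3k+1)`, `(1, 1, 3)`.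
-/

set_option autoImplicit false

open scoped LinearAlgebra.Projectivization

namespace Pool.Agent.H57.Blk

open Pool.Agent.H97.Block Finset

/-- the integer case distinction -/
theorem key (k a b : ℤ) (hk : 1 ≤ k)
    (h : (1 ≤ a ∧ a ≤ 2 * k + 1 ∧ 1 ≤ b ∧ b ≤ 2 * k + 1) ∨
      (1 ≤ a ∧ a ≤ 2 * k + 1 ∧ k + 3 ≤ a + b ∧ a + b ≤ 3 * k + 3) ∨
      (1 ≤ b ∧ b ≤ 2 * k + 1 ∧ k + 3 ≤ a + b ∧ a + b ≤ 3 * k + 3)) :
    (∃ c, -(k - 1) ≤ c ∧ c ≤ k - 1 ∧ a + 2 * b = 3 * k + 4 + 3 * c) ∨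
    (∃ c, -(k - 1) ≤ c ∧ c ≤ k - 1 ∧ 2 * a + b = 3 * k + 4 + 3 * c) ∨
    (∃ c, -(k - 1) ≤ c ∧ c ≤ k - 1 ∧ a - b = 3 * c) ∨ a = 3 * k + 1 ∨ b = 3 * k + 1 ∨ a + b = 3 := by
  obtain ⟨m, hm⟩ : ∃ m, a - b = 3 * m ∨ a - b = 3 * m + 1 ∨ a - b = 3 * m + 2 :=
    ⟨(a - b) / 3, by omega⟩
  rcases hm with hm | hm | hm
  · by_cases h1 : -(k - 1) ≤ m ∧ m ≤ k - 1
    · exact Or.inr (Or.inr (Or.inl ⟨m, h1.1, h1.2, hm⟩))
    · rcases h with h | h | h <;> by_cases e1 : b = 1 <;> by_cases e2 : a = 1 <;> omega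
  · by_cases h1 : -(k - 1) ≤ m + b - k - 1 ∧ m + b - k - 1 ≤ k - 1
    · exact Or.inl ⟨m + b - k - 1, h1.1, h1.2, by omega⟩
    · rcases h with h | h | h <;> by_cases e1 : b = 1 <;> by_cases e2 : a = 1 <;> omega
  · by_cases h1 : -(k - 1) ≤ 2 * m + b - k ∧ 2 * m + b - k ≤ k - 1
    · exact Or.inr (Or.inl ⟨2 * m + b - k, h1.1, h1.2, by omega⟩)
    · rcases h with h | h | h <;> by_cases e1 : b = 1 <;> by_cases e2 : a = 1 <;> omega

/-- the red points on the three lines -/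
noncomputable def vA (a : ℤ) : ℝ × ℝ := (1 / (a : ℝ), 0)

noncomputable def vB (b : ℤ) : ℝ × ℝ := (0, 1 / (b : ℝ))

noncomputable def vC (c : ℤ) : ℝ × ℝ := (1 / (c : ℝ), 1 / (c : ℝ))

open scoped Classical in
/-- the red points without the origin -/
noncomputable def R0 (k : ℤ) : Finset (ℝ × ℝ) :=
  (Icc 1 (2 * k + 1)).image vA ∪ ((Icc 1 (2 * k + 1)).image vB ∪ (Icc (k + 3) (3 * k + 3)).image vC)

open scoped Classical in
/-- the red points -/
noncomputable def R1 (k : ℤ) : Finset (ℝ × ℝ) := insert (0, 0) (R0 k)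

theorem ne1 (r : ℝ) : (![1, 2, r] : Fin 3 → ℝ) ≠ 0 := fun h => by
  have := congrFun h 0
  simp at this

theorem ne2 (r : ℝ) : (![2, 1, r] : Fin 3 → ℝ) ≠ 0 := fun h => by
  have := congrFun h 1
  simp at this

theorem ne3 (r : ℝ) : (![1, -1, r] : Fin 3 → ℝ) ≠ 0 := fun h => by
  have := congrFun h 0
  simp at this

theorem ne4 (r : ℝ) : (![1, 0, r] : Fin 3 → ℝ) ≠ 0 := fun h => by
  have := congrFun h 0
  simp at this

theorem ne5 (r : ℝ) : (![0, 1, r] : Fin 3 → ℝ) ≠ 0 := fun h => by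
  have := congrFun h 1
  simp at this

theorem ne6 (r : ℝ) : (![1, 1, r] : Fin 3 → ℝ) ≠ 0 := fun h => by
  have := congrFun h 0
  simp at this

noncomputable def b1 (k c : ℤ) : PP :=
  Projectivization.mk ℝ ![1, 2, ((3 * k + 4 + 3 * c : ℤ) : ℝ)] (ne1 _)

noncomputable def b2 (k c : ℤ) : PP :=
  Projectivization.mk ℝ ![2, 1, ((3 * k + 4 + 3 * c : ℤ) : ℝ)] (ne2 _)

noncomputable def b3 (c : ℤ) : PP := Projectivization.mk ℝ ![1, -1, ((3 * c : ℤ) : ℝ)] (ne3 _)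

noncomputable def b4 (k : ℤ) : PP := Projectivization.mk ℝ ![1, 0, ((3 * k + 1 : ℤ) : ℝ)] (ne4 _)

noncomputable def b5 (k : ℤ) : PP := Projectivization.mk ℝ ![0, 1, ((3 * k + 1 : ℤ) : ℝ)] (ne5 _)

noncomputable def b6 : PP := Projectivization.mk ℝ ![1, 1, 3] (ne6 _)

open scoped Classical in
/-- the blocking points -/
noncomputable def B1 (k : ℤ) : Finset PP :=
  (Icc (-(k - 1)) (k - 1)).image (b1 k) ∪ ((Icc (-(k - 1)) (k - 1)).image (b2 k) ∪
    ((Icc (-(k - 1)) (k - 1)).image b3 ∪ {b4 k, b5 k, b6}))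

theorem card_B1 (k : ℤ) (hk : 1 ≤ k) : (B1 k).card ≤ (6 * k).toNat := by
  classical
  unfold B1
  have h0 : (Icc (-(k - 1)) (k - 1)).card = (2 * k - 1).toNat := by
    rw [Int.card_Icc]
    congr 1
    ring
  have h1 := card_image_le (s := Icc (-(k - 1)) (k - 1)) (f := b1 k)
  have h2 := card_image_le (s := Icc (-(k - 1)) (k - 1)) (f := b2 k)
  have h3 := card_image_le (s := Icc (-(k - 1)) (k - 1)) (f := b3)
  have h4 : ({b4 k, b5 k, b6} : Finset PP).card ≤ 3 := card_le_three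
  refine (card_union_le _ _).trans ?_
  refine (Nat.add_le_add h1 ((card_union_le _ _).trans
    (Nat.add_le_add h2 ((card_union_le _ _).trans (Nat.add_le_add h3 h4))))).trans ?_
  rw [h0]
  omega

theorem mem_R1 {k : ℤ} {x : ℝ × ℝ} (hx : x ∈ R1 k) : x = (0, 0) ∨
    (∃ a : ℤ, (1 ≤ a ∧ a ≤ 2 * k + 1) ∧ x = vA a) ∨ (∃ b : ℤ, (1 ≤ b ∧ b ≤ 2 * k + 1) ∧ x = vB b) ∨
    (∃ c : ℤ, (k + 3 ≤ c ∧ c ≤ 3 * k + 3) ∧ x = vC c) := by
  classical
  unfold R1 R0 at hx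
  rw [mem_insert, mem_union, mem_union, mem_image, mem_image, mem_image] at hx
  rcases hx with h | ⟨a, ha, rfl⟩ | ⟨a, ha, rfl⟩ | ⟨a, ha, rfl⟩
  · exact Or.inl h
  · exact Or.inr (Or.inl ⟨a, mem_Icc.1 ha, rfl⟩)
  · exact Or.inr (Or.inr (Or.inl ⟨a, mem_Icc.1 ha, rfl⟩))
  · exact Or.inr (Or.inr (Or.inr ⟨a, mem_Icc.1 ha, rfl⟩))

theorem par_eq {p q r : ℝ} (h0 : (![p, q, r] : Fin 3 → ℝ) ≠ 0) {x : ℝ × ℝ}
    (h : Projectivization.mk ℝ ![p, q, r] h0 = emb x) : p = r * x.1 ∧ q = r * x.2 := by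
  have hp := par_of_mk_eq _ _ h
  simp only [Par, Matrix.cons_val_zero, Matrix.cons_val_one, Matrix.cons_val] at hp
  constructor <;> linarith [hp.1, hp.2.1]

theorem types {k : ℤ} (hk : 1 ≤ k) {x : ℝ × ℝ} (hx : x ∈ R1 k) {p q r : ℝ} (h1 : p = r * x.1)
    (h2 : q = r * x.2) : (p = 0 ∧ q = 0) ∨
    (q = 0 ∧ ∃ a : ℤ, (1 ≤ a ∧ a ≤ 2 * k + 1) ∧ r = p * a) ∨
    (p = 0 ∧ ∃ b : ℤ, (1 ≤ b ∧ b ≤ 2 * k + 1) ∧ r = q * b) ∨
    (p = q ∧ ∃ c : ℤ, (k + 3 ≤ c ∧ c ≤ 3 * k + 3) ∧ r = p * c) := by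
  have hcast : ∀ m : ℤ, 1 ≤ m → (m : ℝ) ≠ 0 := fun m hm => by
    have : (0 : ℝ) < m := by exact_mod_cast (by omega : 0 < m)
    exact this.ne'
  rcases mem_R1 hx with rfl | ⟨a, ha, rfl⟩ | ⟨a, ha, rfl⟩ | ⟨a, ha, rfl⟩
  · left
    simp [h1, h2]
  · right; left
    have := hcast a ha.1
    refine ⟨by rw [h2]; simp [vA], a, ha, ?_⟩
    rw [h1, vA]
    field_simp
  · right; right; left
    have := hcast a ha.1
    refine ⟨by rw [h1]; simp [vB], a, ha, ?_⟩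
    rw [h2, vB]
    field_simp
  · right; right; right
    have := hcast a (by omega)
    refine ⟨by rw [h1, h2]; rfl, a, ha, ?_⟩
    rw [h1, vC]
    field_simp

theorem disj (k : ℤ) (hk : 1 ≤ k) (x : ℝ × ℝ) (hx : x ∈ R1 k) : emb x ∉ B1 k := by
  classical
  intro hB
  unfold B1 at hB
  simp only [mem_union, mem_image, mem_Icc, mem_insert, mem_singleton] at hB
  rcases hB with ⟨c, -, h⟩ | ⟨c, -, h⟩ | ⟨c, -, h⟩ | h | h | h
  · obtain ⟨h1, h2⟩ := par_eq _ h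
    rcases types hk hx h1 h2 with ⟨g, -⟩ | ⟨g, -⟩ | ⟨g, -⟩ | ⟨g, -⟩ <;> norm_num at g
  · obtain ⟨h1, h2⟩ := par_eq _ h
    rcases types hk hx h1 h2 with ⟨g, -⟩ | ⟨g, -⟩ | ⟨g, -⟩ | ⟨g, -⟩ <;> norm_num at g
  · obtain ⟨h1, h2⟩ := par_eq _ h
    rcases types hk hx h1 h2 with ⟨g, -⟩ | ⟨g, -⟩ | ⟨g, -⟩ | ⟨g, -⟩ <;> norm_num at g
  · obtain ⟨h1, h2⟩ := par_eq _ h.symm
    rcases types hk hx h1 h2 with ⟨g, -⟩ | ⟨-, a, ha, g⟩ | ⟨g, -⟩ | ⟨g, -⟩
    · norm_num at g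
    · rw [one_mul] at g
      have : 3 * k + 1 = a := by exact_mod_cast g
      omega
    · norm_num at g
    · norm_num at g
  · obtain ⟨h1, h2⟩ := par_eq _ h.symm
    rcases types hk hx h1 h2 with ⟨-, g⟩ | ⟨g, -⟩ | ⟨-, a, ha, g⟩ | ⟨g, -⟩
    · norm_num at g
    · norm_num at g
    · rw [one_mul] at g
      have : 3 * k + 1 = a := by exact_mod_cast g
      omega
    · norm_num at g
  · obtain ⟨h1, h2⟩ := par_eq _ h.symm
    rcases types hk hx h1 h2 with ⟨g, -⟩ | ⟨g, -⟩ | ⟨g, -⟩ | ⟨-, a, ha, g⟩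
    · norm_num at g
    · norm_num at g
    · norm_num at g
    · rw [one_mul] at g
      have : (3 : ℤ) = a := by exact_mod_cast g
      omega

/-- the lines `a x + b y = 1` -/
theorem line (k a b : ℤ) (hk : 1 ≤ k)
    (h : (1 ≤ a ∧ a ≤ 2 * k + 1 ∧ 1 ≤ b ∧ b ≤ 2 * k + 1) ∨
      (1 ≤ a ∧ a ≤ 2 * k + 1 ∧ k + 3 ≤ a + b ∧ a + b ≤ 3 * k + 3) ∨
      (1 ≤ b ∧ b ≤ 2 * k + 1 ∧ k + 3 ≤ a + b ∧ a + b ≤ 3 * k + 3)) (u : Fin 3 → ℝ)
    (h0 : u 0 = -(a * u 2)) (h1 : u 1 = -(b * u 2)) : ∃ p ∈ B1 k, p ∈ pline u := by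
  classical
  rcases key k a b hk h with ⟨c, hc1, hc2, e⟩ | ⟨c, hc1, hc2, e⟩ | ⟨c, hc1, hc2, e⟩ | e | e | e
  · refine ⟨b1 k c, ?_, ?_⟩
    · unfold B1
      exact mem_union_left _ (mem_image_of_mem _ (mem_Icc.2 ⟨hc1, hc2⟩))
    · unfold b1
      rw [mem_pline, ← e]
      simp only [Matrix.cons_val_zero, Matrix.cons_val_one, Matrix.cons_val]
      rw [h0, h1]
      push_cast
      ring
  · refine ⟨b2 k c, ?_, ?_⟩
    · unfold B1
      exact mem_union_right _ (mem_union_left _ (mem_image_of_mem _ (mem_Icc.2 ⟨hc1, hc2⟩)))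
    · unfold b2
      rw [mem_pline, ← e]
      simp only [Matrix.cons_val_zero, Matrix.cons_val_one, Matrix.cons_val]
      rw [h0, h1]
      push_cast
      ring
  · refine ⟨b3 c, ?_, ?_⟩
    · unfold B1
      exact mem_union_right _ (mem_union_right _ (mem_union_left _
        (mem_image_of_mem _ (mem_Icc.2 ⟨hc1, hc2⟩))))
    · unfold b3
      rw [mem_pline, ← e]
      simp only [Matrix.cons_val_zero, Matrix.cons_val_one, Matrix.cons_val]
      rw [h0, h1]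
      push_cast
      ring
  · refine ⟨b4 k, ?_, ?_⟩
    · unfold B1
      simp
    · unfold b4
      rw [mem_pline, ← e]
      simp only [Matrix.cons_val_zero, Matrix.cons_val_one, Matrix.cons_val]
      rw [h0, h1]
      ring
  · refine ⟨b5 k, ?_, ?_⟩
    · unfold B1
      simp
    · unfold b5
      rw [mem_pline, ← e]
      simp only [Matrix.cons_val_zero, Matrix.cons_val_one, Matrix.cons_val]
      rw [h0, h1]
      ring
  · refine ⟨b6, ?_, ?_⟩
    · unfold B1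
      simp
    · unfold b6
      have e' : (a : ℝ) + b = 3 := by exact_mod_cast e
      rw [mem_pline]
      simp only [Matrix.cons_val_zero, Matrix.cons_val_one, Matrix.cons_val]
      rw [h0, h1]
      linear_combination -(u 2) * e'

theorem axA {k : ℤ} {u : Fin 3 → ℝ} (h0 : u 0 = 0) (h2 : u 2 = 0) : ∃ p ∈ B1 k, p ∈ pline u := by
  classical
  refine ⟨b4 k, by unfold B1; simp, ?_⟩
  unfold b4
  rw [mem_pline]
  simp [h0, h2]

theorem axB {k : ℤ} {u : Fin 3 → ℝ} (h0 : u 1 = 0) (h2 : u 2 = 0) : ∃ p ∈ B1 k, p ∈ pline u := by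
  classical
  refine ⟨b5 k, by unfold B1; simp, ?_⟩
  unfold b5
  rw [mem_pline]
  simp [h0, h2]

theorem axC {k : ℤ} {u : Fin 3 → ℝ} (h0 : u 0 + u 1 = 0) (h2 : u 2 = 0) :
    ∃ p ∈ B1 k, p ∈ pline u := by
  classical
  refine ⟨b6, by unfold B1; simp, ?_⟩
  unfold b6
  rw [mem_pline]
  simp only [Matrix.cons_val_zero, Matrix.cons_val_one, Matrix.cons_val]
  rw [h2]
  linarith

/-- the equations for a point of `R` on a line -/
inductive OnL (k : ℤ) (x : ℝ × ℝ) (u : Fin 3 → ℝ) : Prop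
  | o : x = (0, 0) → u 2 = 0 → OnL k x u
  | a (a : ℤ) : x = vA a → 1 ≤ a → a ≤ 2 * k + 1 → u 0 = -(a * u 2) → OnL k x u
  | b (b : ℤ) : x = vB b → 1 ≤ b → b ≤ 2 * k + 1 → u 1 = -(b * u 2) → OnL k x u
  | c (c : ℤ) : x = vC c → k + 3 ≤ c → c ≤ 3 * k + 3 → u 0 + u 1 = -(c * u 2) → OnL k x u

theorem onL {k : ℤ} (hk : 1 ≤ k) {x : ℝ × ℝ} (hx : x ∈ R1 k) {u : Fin 3 → ℝ}
    (h : emb x ∈ pline u) : OnL k x u := by
  have hcast : ∀ m : ℤ, 1 ≤ m → (m : ℝ) ≠ 0 := fun m hm => by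
    have : (0 : ℝ) < m := by exact_mod_cast (by omega : 0 < m)
    exact this.ne'
  unfold emb at h
  rw [mem_pline] at h
  simp only [Matrix.cons_val_zero, Matrix.cons_val_one, Matrix.cons_val] at h
  rcases mem_R1 hx with rfl | ⟨a, ha, rfl⟩ | ⟨a, ha, rfl⟩ | ⟨a, ha, rfl⟩
  · exact OnL.o rfl (by simpa using h)
  · refine OnL.a a rfl ha.1 ha.2 ?_
    have := hcast a ha.1
    unfold vA at h
    field_simp at h
    linarith
  · refine OnL.b a rfl ha.1 ha.2 ?_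
    have := hcast a ha.1
    unfold vB at h
    field_simp at h
    linarith
  · refine OnL.c a rfl ha.1 ha.2 ?_
    have := hcast a (by omega)
    unfold vC at h
    field_simp at h
    linarith

theorem blk (k : ℤ) (hk : 1 ≤ k) : Blocks (R1 k) (B1 k) := by
  refine ⟨disj k hk, ?_⟩
  rintro u - ⟨x, hx, y, hy, hxy, hxu, hyu⟩
  have two : ∀ (c c' : ℤ) (w : ℝ), w = -(c * u 2) → w = -(c' * u 2) → c ≠ c' → u 2 = 0 := by
    intro c c' w h1 h2 hne
    have h3 : ((c : ℝ) - c') * u 2 = 0 := by linarith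
    rcases mul_eq_zero.1 h3 with h | h
    · exact absurd (by exact_mod_cast sub_eq_zero.1 h) hne
    · exact h
  rcases onL hk hx hxu with ⟨e, h⟩ | ⟨a, e, ha, ha', h⟩ | ⟨b, e, hb, hb', h⟩ | ⟨c, e, hc, hc', h⟩ <;>
  rcases onL hk hy hyu with ⟨e', g⟩ | ⟨a', e', ga, ga', g⟩ | ⟨b', e', gb, gb', g⟩ |
    ⟨c', e', gc, gc', g⟩
  · exact absurd (e.trans e'.symm) hxy
  · exact axA (by rw [g, h, mul_zero, neg_zero]) h
  · exact axB (by rw [g, h, mul_zero, neg_zero]) h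
  · exact axC (by rw [g, h, mul_zero, neg_zero]) h
  · exact axA (by rw [h, g, mul_zero, neg_zero]) g
  · have h2 := two a a' _ h g (fun hh => hxy (by rw [e, e', hh]))
    exact axA (by rw [h, h2, mul_zero, neg_zero]) h2
  · exact line k a b' hk (Or.inl ⟨ha, ha', gb, gb'⟩) u h g
  · refine line k a (c' - a) hk (Or.inr (Or.inl ⟨ha, ha', by omega, by omega⟩)) u h ?_
    push_cast
    linarith
  · exact axB (by rw [h, g, mul_zero, neg_zero]) g
  · exact line k a' b hk (Or.inl ⟨ga, ga', hb, hb'⟩) u g h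
  · have h2 := two b b' _ h g (fun hh => hxy (by rw [e, e', hh]))
    exact axB (by rw [h, h2, mul_zero, neg_zero]) h2
  · refine line k (c' - b) b hk (Or.inr (Or.inr ⟨hb, hb', by omega, by omega⟩)) u ?_ h
    push_cast
    linarith
  · exact axC (by rw [h, g, mul_zero, neg_zero]) g
  · refine line k a' (c - a') hk (Or.inr (Or.inl ⟨ga, ga', by omega, by omega⟩)) u g ?_
    push_cast
    linarith
  · refine line k (c - b') b' hk (Or.inr (Or.inr ⟨gb, gb', by omega, by omega⟩)) u ?_ g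
    push_cast
    linarith
  · have h2 := two c c' _ h g (fun hh => hxy (by rw [e, e', hh]))
    exact axC (by rw [h, h2, mul_zero, neg_zero]) h2

theorem vA_inj : Function.Injective vA := fun a b h => by
  have := congrArg Prod.fst h
  simpa [vA] using this

theorem vB_inj : Function.Injective vB := fun a b h => by
  have := congrArg Prod.snd h
  simpa [vB] using this

theorem vC_inj : Function.Injective vC := fun a b h => by
  have := congrArg Prod.snd h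
  simpa [vC] using this

theorem cast_ne {m : ℤ} (hm : 1 ≤ m) : (m : ℝ) ≠ 0 := by
  have : (0 : ℝ) < m := by exact_mod_cast (by omega : 0 < m)
  exact this.ne'

theorem card_R0 (k : ℤ) (hk : 1 ≤ k) : (R0 k).card = (6 * k + 3).toNat := by
  classical
  unfold R0
  rw [card_union_of_disjoint, card_union_of_disjoint, card_image_of_injective _ vA_inj,
    card_image_of_injective _ vB_inj, card_image_of_injective _ vC_inj, Int.card_Icc, Int.card_Icc]
  · omega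
  · rw [disjoint_left]
    intro x hx hy
    obtain ⟨b, hb, rfl⟩ := mem_image.1 hx
    obtain ⟨c, hc, h⟩ := mem_image.1 hy
    rw [mem_Icc] at hc
    have h1 := congrArg Prod.fst h
    have := cast_ne (by omega : 1 ≤ c)
    simp [vB, vC] at h1
    exact this (by exact_mod_cast h1)
  · rw [disjoint_left]
    intro x hx hy
    obtain ⟨a, ha, rfl⟩ := mem_image.1 hx
    rw [mem_Icc] at ha
    rcases mem_union.1 hy with hy | hy
    · obtain ⟨b, hb, h⟩ := mem_image.1 hy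
      have h1 := congrArg Prod.fst h
      have := cast_ne ha.1
      simp [vA, vB] at h1
      exact this (by exact_mod_cast h1.symm)
    · obtain ⟨c, hc, h⟩ := mem_image.1 hy
      rw [mem_Icc] at hc
      have h1 := congrArg Prod.snd h
      have := cast_ne (by omega : 1 ≤ c)
      simp [vA, vC] at h1
      exact this (by exact_mod_cast h1)

theorem zero_notMem (k : ℤ) (hk : 1 ≤ k) : ((0, 0) : ℝ × ℝ) ∉ R0 k := by
  classical
  unfold R0
  rw [mem_union, mem_union, mem_image, mem_image, mem_image]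
  rintro (⟨a, ha, h⟩ | ⟨a, ha, h⟩ | ⟨a, ha, h⟩)
  · rw [mem_Icc] at ha
    have h1 := congrArg Prod.fst h
    have := cast_ne ha.1
    simp [vA] at h1
    exact this (by exact_mod_cast h1)
  · rw [mem_Icc] at ha
    have h1 := congrArg Prod.snd h
    have := cast_ne ha.1
    simp [vB] at h1
    exact this (by exact_mod_cast h1)
  · rw [mem_Icc] at ha
    have h1 := congrArg Prod.snd h
    have := cast_ne (by omega : 1 ≤ a)
    simp [vC] at h1
    exact this (by exact_mod_cast h1)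

theorem Blocks.mono {R R' : Finset (ℝ × ℝ)} {B : Finset PP} (h : Blocks R B) (hR : R' ⊆ R) :
    Blocks R' B :=
  ⟨fun x hx => h.1 x (hR hx), fun u hu ⟨x, hx, y, hy, hxy⟩ =>
    h.2 u hu ⟨x, hR hx, y, hR hy, hxy⟩⟩

theorem not_col (k : ℤ) (hk : 1 ≤ k) (R : Set (ℝ × ℝ)) (h1 : vA 1 ∈ R) (h2 : vB 1 ∈ R)
    (h3 : vC (k + 3) ∈ R) : ¬ Collinear ℝ R := by
  intro h
  have h4 := dt_zero_of_collinear h h1 h2 h3
  have hk' : (1 : ℝ) ≤ k := by exact_mod_cast hk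
  have h5 : (k : ℝ) + 3 ≠ 0 := by linarith
  simp only [dt, vA, vB, vC, Matrix.cons_val_zero, Matrix.cons_val_one, Matrix.cons_val] at h4
  push_cast at h4
  field_simp at h4
  linarith

/-- **three families**: `f (6k+4) ≤ 6k`, `f (6k+3) ≤ 6k`, `f (6k+2) ≤ 6k` -/
theorem f_le (k : ℕ) (hk : 1 ≤ k) : f (6 * k + 4) ≤ 6 * k ∧ f (6 * k + 3) ≤ 6 * k ∧
    f (6 * k + 2) ≤ 6 * k := by
  classical
  have hk' : (1 : ℤ) ≤ k := by exact_mod_cast hk
  have hB : (B1 k).card ≤ 6 * k := by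
    refine (card_B1 k hk').trans (le_of_eq ?_)
    omega
  have hc0 : (R0 k).card = 6 * k + 3 := by
    rw [card_R0 k hk']
    omega
  have hA1 : vA 1 ∈ R0 k := by
    unfold R0
    exact mem_union_left _ (mem_image_of_mem _ (mem_Icc.2 ⟨le_rfl, by omega⟩))
  have hA2 : vA 2 ∈ R0 k := by
    unfold R0
    exact mem_union_left _ (mem_image_of_mem _ (mem_Icc.2 ⟨by norm_num, by omega⟩))
  have hB1 : vB 1 ∈ R0 k := by
    unfold R0
    exact mem_union_right _ (mem_union_left _ (mem_image_of_mem _ (mem_Icc.2 ⟨le_rfl, by omega⟩)))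
  have hC1 : vC (k + 3) ∈ R0 k := by
    unfold R0
    exact mem_union_right _ (mem_union_right _ (mem_image_of_mem _ (mem_Icc.2 ⟨le_rfl, by omega⟩)))
  have hsub : R0 k ⊆ R1 k := subset_insert _ _
  refine ⟨?_, ?_, ?_⟩
  · refine (Nat.sInf_le ?_).trans hB
    refine ⟨R1 k, ?_, ?_, B1 k, rfl, blk k hk'⟩
    · unfold R1
      rw [card_insert_of_notMem (zero_notMem k hk'), hc0]
    · exact not_col k hk' _ (mem_coe.2 (hsub hA1)) (mem_coe.2 (hsub hB1)) (mem_coe.2 (hsub hC1))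
  · refine (Nat.sInf_le ?_).trans hB
    exact ⟨R0 k, hc0, not_col k hk' _ (mem_coe.2 hA1) (mem_coe.2 hB1) (mem_coe.2 hC1), B1 k, rfl,
      Blocks.mono (blk k hk') hsub⟩
  · refine (Nat.sInf_le ?_).trans hB
    refine ⟨(R0 k).erase (vA 2), ?_, ?_, B1 k, rfl,
      Blocks.mono (blk k hk') ((erase_subset _ _).trans hsub)⟩
    · rw [card_erase_of_mem hA2, hc0]
      omega
    · have hneA : vA 1 ≠ vA 2 := fun h => by
        have := vA_inj h
        omega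
      have hneB : vB 1 ≠ vA 2 := fun h => by
        have h1 := congrArg Prod.snd h
        simp [vA, vB] at h1
      have hneC : vC (k + 3) ≠ vA 2 := fun h => by
        have h1 := congrArg Prod.snd h
        have h2 := cast_ne (by omega : (1 : ℤ) ≤ k + 3)
        simp [vA, vC] at h1
        exact h2 (by exact_mod_cast h1)
      exact not_col k hk' _ (mem_coe.2 (mem_erase.2 ⟨hneA, hA1⟩))
        (mem_coe.2 (mem_erase.2 ⟨hneB, hB1⟩)) (mem_coe.2 (mem_erase.2 ⟨hneC, hC1⟩))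

end Pool.Agent.H57.Blk
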